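import Mathlib
import Pool.Agent.Q68.WM.Main
import Pool.Agent.Q68.WM.Defs

/-!
# MP_605199_an, Q1 (negative answer)

There is a complete separable metric abelian group `G` with an invariant metric, with a dense
cyclic subgroup generated by `a`, and a σ-finite infinite nonatomic Borel measure on `G`, positive on
all open balls, for which the translation by `a` is measure-preserving and weakly mixing. The
translation is an isometry, hence it is not measurably sensitive.

`G` is the completion of `ℤ` for the largest group norm with `‖s‖ ≤ 2^(-k-1)` for `s` in `S_k`, where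
`S_0, S_1, …` are finite sets of integers, each without short relations relative to the previous
ones, but so large that their exponential sums are small (random sets have both properties). The
measure is the limit of the normalized laws of `f + ∑_{k ≥ K} s_k`, `|f| ≤ h_K`, `s_k` independent and
uniform in `S_k`.

The definitions `WeaklyMixing`, `Admissible`, `SensitiveWrt`, `Question1` are in
`Pool.Agent.Q68.WM.Defs`.
-/

open MeasureTheory Filter Topology Set

namespace Pool.Agent.Results.MP_605199_an.WeaklyMixingIsometry

open Q68.WM

lemma io_zsmul (n : ℤ) : n • io 1 = io n := by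
  have h := map_zsmul (AddMonoidHom.mk' io io_add) n 1
  simp only [AddMonoidHom.mk'_apply, smul_eq_mul, mul_one] at h
  exact h.symm

lemma dense_multiples : DenseRange fun n : ℤ => n • io 1 := by
  rw [Metric.denseRange_iff]
  intro x ε hε
  obtain ⟨n, hn⟩ := dense_io x hε
  exact ⟨n, by rw [io_zsmul, dist_eq_norm]; exact hn⟩

/-- The statement of Q1 is false. There is a counterexample in which the space is a complete
separable normed abelian group `X`, the transformation is the translation by an element `a` whose
multiples are dense, and the admissible metric is the metric of `X`, which the transformation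
preserves. -/
theorem result : ¬ Question1 ∧
    ∃ (X : Type) (_ : NormedAddCommGroup X) (_ : MeasurableSpace X) (_ : BorelSpace X)
      (_ : CompleteSpace X) (_ : SecondCountableTopology X) (μ : Measure X) (a : X),
      SigmaFinite μ ∧ (∀ x, μ {x} = 0) ∧ μ Set.univ = ⊤ ∧
      (∀ x : X, ∀ ε : ℝ, 0 < ε → 0 < μ (Metric.ball x ε)) ∧
      DenseRange (fun n : ℤ => n • a) ∧
      MeasurePreserving (fun x => a + x) μ μ ∧ WeaklyMixing μ (fun x => a + x) := by
  refine ⟨?_, G, inferInstance, inferInstance, inferInstance, inferInstance, inferInstance, mu, io 1,
    inferInstance, mu_singleton, mu_univ, fun x ε hε => ball_pos x hε, dense_multiples, T_mp,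
    weaklyMixing⟩
  intro h
  have hadm : Admissible mu (inferInstance : MetricSpace G) := by
    intro x ε hε
    have e : {z : G | dist x z < ε} = Metric.ball x ε := by
      ext z
      rw [Metric.mem_ball, dist_comm]
      exact Iff.rfl
    rw [e]
    exact ⟨Metric.isOpen_ball.measurableSet, ball_pos x hε⟩
  obtain ⟨δ, hδ, h1⟩ := h G mu mu_singleton mu_univ T.toHomeomorph.toMeasurableEquiv T_mp
    weaklyMixing inferInstance hadm
  have hne : mu ≠ 0 := by
    intro h0
    have := mu_univ
    rw [h0] at this
    simp at this
  have : NeZero mu := ⟨hne⟩
  obtain ⟨x, hx⟩ := h1.exists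
  obtain ⟨n, hn⟩ := hx δ hδ
  have hiso : Isometry (T.toHomeomorph.toMeasurableEquiv : G → G) := T.isometry
  have hiter : ∀ m : ℕ, Isometry ((T.toHomeomorph.toMeasurableEquiv : G → G)^[m]) := by
    intro m
    induction m with
    | zero => exact isometry_id
    | succ m ih => rw [Function.iterate_succ]; exact ih.comp hiso
  have e : {z : G | dist x z < δ ∧ δ < dist ((T.toHomeomorph.toMeasurableEquiv : G → G)^[n] z)
      ((T.toHomeomorph.toMeasurableEquiv : G → G)^[n] x)} = ∅ := by
    rw [Set.eq_empty_iff_forall_notMem]
    rintro z ⟨h2, h3⟩
    rw [(hiter n).dist_eq, dist_comm] at h3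
    exact lt_asymm h2 h3
  rw [e, measure_empty] at hn
  exact lt_irrefl _ hn

end Pool.Agent.Results.MP_605199_an.WeaklyMixingIsometry
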